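import Pool.Agent.helper58.FI4E.Spec

/-!
# Row fi4e:BDE: the trace is bounded by the number of Brauer characters
-/

set_option autoImplicit false

namespace Pool.Agent.FI4E

open Pool.Agent.helper58.DC Pool.Agent.DI Pool.Agent.GR Pool.Agent.OB Pool.Agent.DR Pool.Agent.FI Pool.Agent.FI3 Pool.Agent.FI4 Pool.Agent.FI4I

/-- The linear algebra: a Hermitian idempotent matrix and a permutation. -/
theorem BDE_pure {ι : Type} [DecidableEq ι] (T : Finset ι) (E : ι → ι → ℂ) (σ : ι → ι)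
    (hσ : ∀ a ∈ T, σ a ∈ T) (hσi : Function.Injective σ)
    (hE : ∀ a ∈ T, ∀ c ∈ T, ∑ b ∈ T, E a b * E b c = E a c)
    (hH : ∀ a ∈ T, ∀ b ∈ T, E b a = (starRingEnd ℂ) (E a b)) (l : ℕ)
    (hl : ∑ a ∈ T, E a a = l) : ‖∑ a ∈ T, E (σ a) a‖ ≤ l := by
  have hnorm : ∀ a ∈ T, ∀ b ∈ T, ‖E b a‖ = ‖E a b‖ := by
    intro a ha b hb
    rw [hH a ha b hb, RCLike.norm_conj]
  have hsq : ∀ a ∈ T, ((∑ b ∈ T, ‖E a b‖ ^ 2 : ℝ) : ℂ) = E a a := by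
    intro a ha
    rw [← hE a ha a ha]
    push_cast
    refine Finset.sum_congr rfl fun b hb => ?_
    rw [hH a ha b hb, RCLike.mul_conj]
    rfl
  have hA : ∑ a ∈ T, ∑ b ∈ T, ‖E a b‖ ^ 2 = (l : ℝ) := by
    have h1 : ((∑ a ∈ T, ∑ b ∈ T, ‖E a b‖ ^ 2 : ℝ) : ℂ) = ((l : ℝ) : ℂ) := by
      rw [Complex.ofReal_sum, Finset.sum_congr rfl hsq, hl, Complex.ofReal_natCast]
    exact Complex.ofReal_injective h1
  have himg : T.image σ = T := by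
    refine Finset.eq_of_subset_of_card_le ?_ ?_
    · intro b hb
      obtain ⟨a, ha, rfl⟩ := Finset.mem_image.1 hb
      exact hσ a ha
    · rw [Finset.card_image_of_injective _ hσi]
  have hA' : ∑ a ∈ T, ∑ b ∈ T, ‖E (σ a) b‖ ^ 2 = (l : ℝ) := by
    rw [← hA]
    conv_rhs => rw [← himg]
    rw [Finset.sum_image (fun a _ b _ h => hσi h)]
    refine Finset.sum_congr rfl fun a _ => ?_
    rw [himg]
  have hB : ∑ a ∈ T, ∑ b ∈ T, ‖E b a‖ ^ 2 = (l : ℝ) := by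
    rw [← hA]
    refine Finset.sum_congr rfl fun a ha => Finset.sum_congr rfl fun b hb => ?_
    rw [hnorm a ha b hb]
  have h1 : ∑ a ∈ T, E (σ a) a = ∑ x ∈ T ×ˢ T, E (σ x.1) x.2 * E x.2 x.1 := by
    rw [Finset.sum_product]
    exact Finset.sum_congr rfl fun a ha => (hE (σ a) (hσ a ha) a ha).symm
  have h2 : ‖∑ a ∈ T, E (σ a) a‖ ≤ ∑ x ∈ T ×ˢ T, ‖E (σ x.1) x.2‖ * ‖E x.2 x.1‖ := by
    rw [h1]
    refine (norm_sum_le _ _).trans (le_of_eq ?_)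
    exact Finset.sum_congr rfl fun x _ => norm_mul _ _
  have h3 := Finset.sum_mul_sq_le_sq_mul_sq (T ×ˢ T) (fun x => ‖E (σ x.1) x.2‖) (fun x => ‖E x.2 x.1‖)
  rw [Finset.sum_product (f := fun x : ι × ι => ‖E (σ x.1) x.2‖ ^ 2),
    Finset.sum_product (f := fun x : ι × ι => ‖E x.2 x.1‖ ^ 2), hA', hB] at h3
  have h4 : ∑ x ∈ T ×ˢ T, ‖E (σ x.1) x.2‖ * ‖E x.2 x.1‖ ≤ (l : ℝ) := by
    refine abs_le_of_sq_le_sq' ?_ (Nat.cast_nonneg l) |>.2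
    rw [sq (l : ℝ)]
    exact h3
  exact h2.trans h4

theorem BDE (hQEI : QEI_stmt) (hB2 : B2_stmt) (hBAA : BAA_stmt) : BDE_stmt := by
  classical
  intro p M hS G _ _ H S hBC α hα hst l hl
  have hSI : S ⊆ IrrOn H := hBC.1
  have hfin : S.Finite := (hB2 G H).1.subset hSI
  obtain ⟨q1, -, q3, -⟩ := hQEI p M hS G H S hBC
  have hmem : ∀ ψ : G → ℂ, ψ ∈ hfin.toFinset ↔ ψ ∈ S := fun ψ => hfin.mem_toFinset
  unfold tS
  rw [finsum_mem_eq_finite_toFinset_sum _ hfin]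
  rw [finsum_mem_eq_finite_toFinset_sum _ hfin] at hl
  refine BDE_pure hfin.toFinset (fun φ ψ => EE p H φ ψ) (funMap α) ?_ ?_ ?_ ?_ l hl
  · intro ψ hψ
    rw [hmem] at hψ ⊢
    exact hst ψ hψ
  · intro ψ ψ' h
    have h1 : funMap α⁻¹ (funMap α ψ) = funMap α⁻¹ (funMap α ψ') := by rw [h]
    rw [← funMap_mul, ← funMap_mul, inv_mul_cancel] at h1
    have h2 : ∀ φ : G → ℂ, funMap (1 : MulAut G) φ = φ := by
      intro φ
      funext x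
      simp only [funMap, inv_one]
      rfl
    rwa [h2, h2] at h1
  · intro ψ hψ ψ'' hψ''
    have h1 := q1 ψ ((hmem ψ).1 hψ) ψ'' ((hmem ψ'').1 hψ'')
    rwa [finsum_mem_eq_finite_toFinset_sum _ hfin] at h1
  · intro ψ hψ ψ' hψ'
    exact q3 ψ (hSI ((hmem ψ).1 hψ)) ψ' (hSI ((hmem ψ').1 hψ'))

end Pool.Agent.FI4E
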